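import Mathlib
import Pool.Agent.V11217.CpBasic
import Pool.Agent.V11217.CpPart2
import Pool.Agent.V11217.CpPower
import Pool.Agent.V11217.CpPart1
import Pool.Agent.V11217.CpRoth

/-!
The statement of Q1 (`C_p(X)` `F`-separable implies `C_p(X)` Frechet-Urysohn, for all Tychonoff
spaces `X`) follows from Borel's Conjecture and is refuted by `ℵ₁ < 𝔭`; so it is independent of ZFC.
-/

namespace Pool.Agent.Results.MP_1ca5ad_gt.Independence

open Set Filter Topology Cardinal
open Pool.Agent.V11217.CpBasic Pool.Agent.V11217.CpPart2 Pool.Agent.V11217.CpPart1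

/-- Borel's Conjecture: every strong measure zero set of reals is countable. -/
def BorelConjecture : Prop := ∀ S : Set ℝ, StrongMeasureZero S → S.Countable

/-- In ZFC: if `X` is an uncountable Tychonoff space with `C_p(X)` `F`-separable, then there is an
uncountable strong measure zero set of reals. -/
theorem uncountable_smz (X : Type) [TopologicalSpace X] [T35Space X] (hX : Uncountable X)
    (hF : FSeparable (Cp X)) : ∃ S : Set ℝ, StrongMeasureZero S ∧ ¬ S.Countable := by
  by_cases hb : bNumber ≤ ℵ₁
  · exact Pool.Agent.V11217.CpRoth.exists_uncountable_smz hb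
  rw [not_le] at hb
  obtain ⟨A, hA, hAF⟩ := hF
  have hAne : A.Nonempty := by
    have h1 : (⟨fun _ => 0, continuous_const⟩ : Cp X) ∈ FClosure A := by rw [hAF]; trivial
    exact closure_nonempty_iff.1 ⟨_, h1.1⟩
  obtain ⟨a, ha⟩ := hA.exists_eq_range hAne
  let c : ℕ → X → ℝ := fun n x => Real.arctan ((a n).1 x)
  have hcb : ∀ n x, |c n x| ≤ 2 := by
    intro n x
    have h1 := Real.arctan_lt_pi_div_two ((a n).1 x)
    have h2 := Real.neg_pi_div_two_lt_arctan ((a n).1 x)
    have h3 := Real.pi_le_four
    rw [abs_le]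
    constructor <;> linarith
  have hsep : ∀ x y, x ≠ y → ∃ n, c n x ≠ c n y := by
    intro x y hxy
    obtain ⟨f, hf, hfx, hfy⟩ := CompletelyRegularSpace.completely_regular x {y}
      isClosed_singleton (by simpa using hxy)
    let f' : Cp X := ⟨fun z => ((f z : unitInterval) : ℝ), continuous_subtype_val.comp hf⟩
    have h1 : f' ∈ FClosure A := by rw [hAF]; trivial
    classical
    obtain ⟨s, hs, hs2⟩ := mem_closure_Cp.1 h1.1 {x, y} (1 / 2) (by norm_num)
    rw [ha] at hs
    obtain ⟨n, rfl⟩ := hs
    refine ⟨n, fun heq => ?_⟩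
    have h2 : (a n).1 x = (a n).1 y := Real.arctan_injective heq
    have h3 := hs2 x (by simp)
    have h4 := hs2 y (by simp)
    have h5 : f'.1 x = 0 := by
      show ((f x : unitInterval) : ℝ) = 0
      rw [hfx]; rfl
    have h6 : f'.1 y = 1 := by
      show ((f y : unitInterval) : ℝ) = 1
      rw [hfy (mem_singleton y)]; rfl
    rw [h5, h2] at h3
    rw [h6] at h4
    have h7 := abs_lt.1 h3
    have h8 := abs_lt.1 h4
    linarith [h7.2, h8.1]
  have hle : ℵ₁ ≤ #X := by
    rw [← Cardinal.succ_aleph0]
    exact Order.succ_le_of_lt (Cardinal.aleph0_lt_mk)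
  obtain ⟨Z, hZ⟩ := Cardinal.le_mk_iff_exists_set.1 hle
  obtain ⟨t, ht, hinj⟩ := Pool.Agent.V11217.CpPower.exists_injOn (Z := Z) hZ.le
    (hb.trans_le bNumber_le_continuum) c hcb hsep
  have hZinf : Z.Infinite := by
    intro hfin
    have h1 := Cardinal.le_aleph0_iff_set_countable.2 hfin.countable
    rw [hZ] at h1
    exact absurd h1 (not_le.2 Cardinal.aleph0_lt_aleph_one)
  have hg : Continuous (fun x => ∑' n, c n x * t ^ n) := by
    refine continuous_tsum (u := fun n => 2 * t ^ n) (fun n => ?_) ?_ (fun n x => ?_)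
    · exact (Real.continuous_arctan.comp (a n).2).mul continuous_const
    · exact (summable_geometric_of_lt_one ht.1.le (by linarith [ht.2])).mul_left 2
    · rw [norm_mul, norm_pow, Real.norm_eq_abs, Real.norm_eq_abs, abs_of_pos ht.1]
      exact mul_le_mul_of_nonneg_right (hcb n x) (pow_nonneg ht.1.le n)
  refine ⟨_, smz_of_fdense hb hAF hZ.le hZinf hg hinj, fun hcount => ?_⟩
  have h1 : Z.Countable := by
    have := (hinj.bijOn_image)
    exact (Set.countable_of_injective_of_countable_image hinj hcount)
  have h2 := Cardinal.le_aleph0_iff_set_countable.2 h1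
  rw [hZ] at h2
  exact absurd h2 (not_le.2 Cardinal.aleph0_lt_aleph_one)

/-- **Main theorem.** (1) In ZFC, an uncountable Tychonoff space `X` with `C_p(X)` `F`-separable
yields an uncountable strong measure zero set of reals. (2) Borel's Conjecture implies that for
every Tychonoff `X`, `C_p(X)` `F`-separable implies `C_p(X)` Frechet-Urysohn. (3) `ℵ₁ < 𝔭` implies
that this fails. -/
theorem result :
    (∀ (X : Type) [TopologicalSpace X] [T35Space X], Uncountable X → FSeparable (Cp X) →
      ∃ S : Set ℝ, StrongMeasureZero S ∧ ¬ S.Countable) ∧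
    (BorelConjecture → Q1) ∧ (ℵ₁ < pNumber → ¬ Q1) := by
  refine ⟨fun X _ _ hX hF => uncountable_smz X hX hF, fun hBC X _ _ hF => ?_, part2⟩
  have hc : Countable X := by
    by_contra hcon
    obtain ⟨S, hS, hS2⟩ := uncountable_smz X (not_countable_iff.1 hcon) hF
    exact hS2 (hBC S hS)
  infer_instance

end Pool.Agent.Results.MP_1ca5ad_gt.Independence
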